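import Pool.Agent.H.MP_abf9c7_co.Upper

namespace Pool.Agent.H.MP_abf9c7_co

open Finset Filter Asymptotics

theorem lower (t a b s : ℕ) (ha : s + 2 ≤ a) (hb : (t + s + 2) ^ (2 * s + 2) ≤ b) :
    ∃ (M : Fin t → Finset ℕ) (LA : Fin a → Finset ℕ) (LB : Fin b → Finset ℕ),
      (∀ i, (M i).card = t + s + 2) ∧ (∀ i, (LA i).card = t + s + 2) ∧
      (∀ i, (LB i).card = t + s + 2) ∧
      ∀ (cT : Fin t → ℕ) (cA : Fin a → ℕ) (cB : Fin b → ℕ), (∀ i, cT i ∈ M i) →
        (∀ i, cA i ∈ LA i) → (∀ i, cB i ∈ LB i) → Function.Injective cT →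
        (∀ i j, cT i ≠ cA j) → (∀ i y, cT i ≠ cB y) → (∀ j y, cA j ≠ cB y) → False := by
  obtain ⟨L, hL, hLd⟩ : ∃ L : ℕ → Finset ℕ, (∀ i, (L i).card = t + s + 2) ∧
      ∀ i j x, x ∈ L i → x ∈ L j → i = j := by
    refine ⟨fun i => (range (t + s + 2)).image (Nat.pair i), fun i => ?_, ?_⟩
    · rw [card_image_of_injective _ fun x y e => (Nat.pair_eq_pair.1 e).2, card_range]
    · intro i j x hi hj
      obtain ⟨u, -, rfl⟩ := mem_image.1 hi
      obtain ⟨v, -, e⟩ := mem_image.1 hj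
      exact (Nat.pair_eq_pair.1 e).1.symm
  set X := powersetCard (t + 1) (L 0) ×ˢ Fintype.piFinset fun i : Fin (s + 1) => L (i + 1) with hX
  have hXc : X.card ≤ b := by
    rw [hX, card_product, card_powersetCard, Fintype.card_piFinset, hL]
    simp only [hL, prod_const, card_univ, Fintype.card_fin]
    have h1 : (t + s + 2).choose (t + 1) = (t + s + 2).choose (s + 1) :=
      Nat.choose_symm_of_eq_add (by ring)
    rw [h1]
    refine le_trans (Nat.mul_le_mul_right _ (Nat.choose_le_pow _ _)) (le_trans (le_of_eq ?_) hb)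
    ring
  have hXn : X.Nonempty := by
    refine Nonempty.product (powersetCard_nonempty.2 (by rw [hL]; omega)) ?_
    rw [Fintype.piFinset_nonempty]
    intro i
    rw [← card_pos, hL]; omega
  obtain ⟨e⟩ : Nonempty (X ↪ Fin b) := Function.Embedding.nonempty_of_card_le (by simpa using hXc)
  haveI : Nonempty X := hXn.to_subtype
  obtain ⟨g, hg⟩ : ∃ g : Fin b → X, Function.Surjective g :=
    ⟨Function.invFun e, Function.invFun_surjective e.injective⟩
  refine ⟨fun _ => L 0, fun j => L j, fun y => (g y).1.1 ∪ univ.image (g y).1.2, fun _ => hL _,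
    fun _ => hL _, fun y => ?_, ?_⟩
  · beta_reduce
    obtain ⟨⟨S, f⟩, hp⟩ := g y
    rw [hX, mem_product, mem_powersetCard, Fintype.mem_piFinset] at hp
    dsimp only at hp ⊢
    rw [card_union_of_disjoint, card_image_of_injective, hp.1.2, card_univ, Fintype.card_fin]
    · ring
    · intro i j e
      have := hLd _ _ _ (hp.2 i) (e ▸ hp.2 j)
      exact Fin.ext (by omega)
    · rw [disjoint_left]
      intro x hx hx'
      obtain ⟨i, -, rfl⟩ := mem_image.1 hx'
      have := hLd _ _ _ (hp.1.1 hx) (hp.2 i)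
      omega
  · intro cT cA cB hT hA hB h1 h2 h3 h4
    obtain ⟨y, hy⟩ := hg ⟨(insert (cA ⟨0, by omega⟩) (univ.image cT),
      fun i : Fin (s + 1) => cA ⟨i + 1, by omega⟩), by
        rw [hX, mem_product, mem_powersetCard, Fintype.mem_piFinset]
        refine ⟨⟨?_, ?_⟩, fun i => hA ⟨i + 1, by omega⟩⟩
        · intro x hx
          rcases mem_insert.1 hx with rfl | hx
          · exact hA ⟨0, by omega⟩
          · obtain ⟨i, -, rfl⟩ := mem_image.1 hx
            exact hT i
        · rw [card_insert_of_notMem, card_image_of_injective _ h1, card_univ, Fintype.card_fin]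
          intro hx
          obtain ⟨i, -, e⟩ := mem_image.1 hx
          exact h2 _ _ e⟩
    have h5 := hB y
    simp only [hy, mem_union, mem_insert, mem_image, mem_univ, true_and] at h5
    rcases h5 with (h5 | ⟨i, h5⟩) | ⟨i, h5⟩
    · exact h4 _ _ h5.symm
    · exact h3 _ _ h5
    · exact h4 _ _ h5

theorem theta (s a : ℕ) (ha : 1 ≤ a) (τ : ℕ → ℕ)
    (h1 : ∀ b m, 1 ≤ b → a ≤ m → b * a ^ (2 * s + 2) < m ^ (2 * s + 2) → τ b ≤ a * m + (s + 1))
    (h2 : ∀ b, 1 ≤ b → b < (τ b + s + 2) ^ (2 * s + 2)) :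
    (fun b : ℕ => (τ b : ℝ)) =Θ[atTop] fun b : ℕ => (b : ℝ) ^ (1 / (2 * (s : ℝ) + 2)) := by
  have hx : ∀ b : ℕ, ((b : ℝ) ^ (1 / (2 * (s : ℝ) + 2))) ^ (2 * s + 2) = b := by
    intro b
    have := Real.rpow_inv_natCast_pow (x := (b : ℝ)) (n := 2 * s + 2) (by positivity) (by omega)
    rw [one_div]
    push_cast at this
    exact this
  have hx0 : ∀ b : ℕ, 0 ≤ (b : ℝ) ^ (1 / (2 * (s : ℝ) + 2)) := fun b => by positivity
  constructor
  · refine IsBigO.of_bound (2 * a ^ 2 + s + 1) ?_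
    filter_upwards [eventually_ge_atTop 1] with b hb
    have e := hx b
    have e0 := hx0 b
    generalize (b : ℝ) ^ (1 / (2 * (s : ℝ) + 2)) = x at e e0
    rw [Real.norm_of_nonneg e0, Real.norm_of_nonneg (by positivity)]
    have hb' : (1 : ℝ) ≤ b := by exact_mod_cast hb
    have hx1 : 1 ≤ x := by
      by_contra h
      have := pow_lt_one₀ e0 (not_le.1 h) (show 2 * s + 2 ≠ 0 by omega)
      linarith
    have h3 := h1 b (a * (⌊x⌋₊ + 1)) hb (Nat.le_mul_of_pos_right _ (by omega)) (by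
      rw [mul_pow, mul_comm]
      refine Nat.mul_lt_mul_of_pos_left ?_ (by positivity)
      have := pow_lt_pow_left₀ (Nat.lt_floor_add_one x) e0 (show 2 * s + 2 ≠ 0 by omega)
      rw [e] at this
      exact_mod_cast this)
    have h4 : (τ b : ℝ) ≤ a * (a * (⌊x⌋₊ + 1)) + (s + 1) := by exact_mod_cast h3
    have h5 := Nat.floor_le e0
    have h6 : (0 : ℝ) ≤ (a : ℝ) ^ 2 := by positivity
    have h7 : (0 : ℝ) ≤ (s : ℝ) + 1 := by positivity
    nlinarith [mul_le_mul_of_nonneg_left h5 h6, mul_le_mul_of_nonneg_left hx1 h6,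
      mul_le_mul_of_nonneg_left hx1 h7]
  · refine IsBigO.of_bound 2 ?_
    filter_upwards [eventually_ge_atTop ((2 * (s + 2)) ^ (2 * s + 2) + 1)] with b hb
    have e := hx b
    have e0 := hx0 b
    generalize (b : ℝ) ^ (1 / (2 * (s : ℝ) + 2)) = x at e e0
    rw [Real.norm_of_nonneg e0, Real.norm_of_nonneg (by positivity)]
    have h3 := h2 b (by omega)
    have h4 : 2 * (s + 2) < τ b + s + 2 :=
      lt_of_pow_lt_pow_left₀ (2 * s + 2) (by omega) (by omega)
    have h5 : x < ((τ b + s + 2 : ℕ) : ℝ) :=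
      lt_of_pow_lt_pow_left₀ (2 * s + 2) (by positivity) (by rw [e]; exact_mod_cast h3)
    have h6 : ((τ b + s + 2 : ℕ) : ℝ) ≤ (2 * τ b : ℕ) := by exact_mod_cast (by omega)
    push_cast at h5 h6
    linarith

end Pool.Agent.H.MP_abf9c7_co
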