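import Mathlib

namespace Pool.Agent.H.MP_abf9c7_co

open Finset

theorem sdr {ι : Type} [DecidableEq ι] (N : ι → Finset ℕ) (J : Finset ι) :
    (∀ i ∈ J, J.card ≤ (N i).card) →
      ∃ g : ι → ℕ, Set.InjOn g J ∧ ∀ i ∈ J, g i ∈ N i := by
  induction J using Finset.induction_on with
  | empty => intro _; exact ⟨fun _ => 0, by simp, by simp⟩
  | insert j J hj ih =>
    intro h
    rw [card_insert_of_notMem hj] at h
    obtain ⟨g, hg1, hg2⟩ := ih fun i hi => by
      have := h i (mem_insert_of_mem hi)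
      omega
    obtain ⟨x, hx1, hx2⟩ := exists_mem_notMem_of_card_lt_card (s := J.image g) (t := N j)
      (lt_of_le_of_lt card_image_le (h j (mem_insert_self _ _)))
    have hne : ∀ i ∈ J, i ≠ j := fun i hi e => hj (e ▸ hi)
    refine ⟨Function.update g j x, ?_, ?_⟩
    · intro u hu v hv e
      rcases mem_insert.1 (mem_coe.1 hu) with hu | hu <;>
        rcases mem_insert.1 (mem_coe.1 hv) with hv | hv
      · rw [hu, hv]
      · rw [hu, Function.update_self, Function.update_of_ne (hne v hv)] at e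
        exact absurd (e ▸ mem_image_of_mem g hv) hx2
      · rw [hv, Function.update_self, Function.update_of_ne (hne u hu)] at e
        exact absurd (e ▸ mem_image_of_mem g hu) hx2
      · rw [Function.update_of_ne (hne u hu), Function.update_of_ne (hne v hv)] at e
        exact hg1 hu hv e
    · intro i hi
      rcases mem_insert.1 hi with hi | hi
      · rw [hi, Function.update_self]; exact hx1
      · rw [Function.update_of_ne (hne i hi)]; exact hg2 i hi

theorem potential {ι κ : Type} [DecidableEq ι] (P : ι → Finset ℕ) (m : ℝ) (hm : 0 < m)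
    (Y : Finset κ) (I : Finset ι) : (∀ i ∈ I, m ≤ (P i).card) → ∀ R : κ → Finset ℕ,
      ∑ y ∈ Y, ((I.card : ℝ) / m) ^ (R y).card < 1 →
      ∃ f : ι → ℕ, (∀ i ∈ I, f i ∈ P i) ∧ ∀ y ∈ Y, ¬R y ⊆ I.image f := by
  induction I using Finset.induction_on with
  | empty =>
    intro _ R h
    refine ⟨fun _ => 0, by simp, fun y hy h2 => ?_⟩
    rw [image_empty, subset_empty] at h2
    have := single_le_sum (f := fun y => (((∅ : Finset ι).card : ℝ) / m) ^ (R y).card)
      (fun _ _ => by positivity) hy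
    simp only [h2, card_empty, pow_zero] at this h
    linarith
  | insert j I hj ih =>
    intro hP R h
    have hPj := hP j (mem_insert_self _ _)
    have hne : (P j).Nonempty := by
      rw [← card_pos]; exact_mod_cast hm.trans_le hPj
    have key : ∑ x ∈ P j, ∑ y ∈ Y, ((I.card : ℝ) / m) ^ ((R y).erase x).card ≤
        ∑ _x ∈ P j, ∑ y ∈ Y, (((insert j I).card : ℝ) / m) ^ (R y).card := by
      rw [sum_comm, sum_comm (s := P j)]
      refine sum_le_sum fun y _ => ?_
      rw [card_insert_of_notMem hj, sum_const, nsmul_eq_mul]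
      set u : ℝ := (I.card : ℝ) / m with hu
      have hu0 : 0 ≤ u := by positivity
      have h1 : ∑ x ∈ P j, u ^ ((R y).erase x).card ≤
          ∑ x ∈ P j, (u ^ (R y).card + if x ∈ R y then u ^ ((R y).card - 1) else 0) := by
        refine sum_le_sum fun x _ => ?_
        split_ifs with hx
        · rw [card_erase_of_mem hx]; exact le_add_of_nonneg_left (by positivity)
        · rw [erase_eq_of_notMem hx, add_zero]
      rw [sum_add_distrib, sum_const, nsmul_eq_mul, sum_ite_mem, sum_const, nsmul_eq_mul] at h1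
      have h2 : ((P j ∩ R y).card : ℝ) ≤ (R y).card := by
        exact_mod_cast card_le_card inter_subset_right
      have h3 := pow_add_mul_le_add_pow (a := u) (b := 1 / m) hu0 (by positivity) (R y).card
      have e : ((I.card + 1 : ℕ) : ℝ) / m = u + 1 / m := by rw [hu]; push_cast; ring
      rw [e]
      have h4 : 1 ≤ (P j).card * (1 / m) := by rw [mul_one_div, le_div_iff₀ hm]; linarith
      have h5 : 0 ≤ u ^ ((R y).card - 1) := by positivity
      have h6 := mul_le_mul_of_nonneg_left h3 (show (0 : ℝ) ≤ (P j).card by positivity)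
      have h7 := mul_le_mul_of_nonneg_right h2 h5
      have h8 := mul_le_mul_of_nonneg_left h4
        (show (0 : ℝ) ≤ (R y).card * u ^ ((R y).card - 1) by positivity)
      linarith
    obtain ⟨x, hx, hx2⟩ := exists_le_of_sum_le hne key
    obtain ⟨f, hf1, hf2⟩ := ih (fun i hi => hP i (mem_insert_of_mem hi))
      (fun y => (R y).erase x) (hx2.trans_lt h)
    have hne : ∀ i ∈ I, i ≠ j := fun i hi e => hj (e ▸ hi)
    refine ⟨Function.update f j x, fun i hi => ?_, fun y hy h3 => hf2 y hy fun z hz => ?_⟩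
    · rcases mem_insert.1 hi with hi | hi
      · rw [hi, Function.update_self]; exact hx
      · rw [Function.update_of_ne (hne i hi)]; exact hf1 i hi
    · rw [mem_erase] at hz
      obtain ⟨i, hi, e⟩ := mem_image.1 (h3 hz.2)
      rcases mem_insert.1 hi with hi | hi
      · rw [hi, Function.update_self] at e; exact absurd e.symm hz.1
      · rw [Function.update_of_ne (hne i hi)] at e; exact mem_image.2 ⟨i, hi, e⟩

theorem stage1 {κ : Type} (Y : Finset κ) (U : Finset ℕ) (Q : κ → Finset ℕ) (a r m : ℕ)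
    (hQ : ∀ y ∈ Y, (Q y).card ≤ a) (hU : m + r ≤ U.card + 1) (hr : r ≤ U.card) :
    ∃ Z ⊆ U, Z.card = r ∧
      ((Y.filter fun y => Z ⊆ Q y).card : ℝ) * (m : ℝ) ^ r ≤ Y.card * (a : ℝ) ^ r := by
  have hne : (powersetCard r U).Nonempty := powersetCard_nonempty.2 hr
  have hf : (0 : ℝ) < r.factorial := by exact_mod_cast r.factorial_pos
  obtain ⟨Z, hZ, hZ2⟩ := exists_le_of_sum_le
    (f := fun Z => ((Y.filter fun y => Z ⊆ Q y).card : ℝ) * (m : ℝ) ^ r)
    (g := fun _ => Y.card * (a : ℝ) ^ r) hne (by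
      rw [← sum_mul, sum_const, card_powersetCard, nsmul_eq_mul]
      have h1 : ∑ Z ∈ powersetCard r U, (Y.filter fun y => Z ⊆ Q y).card ≤
          Y.card * a.choose r := by
        simp only [card_filter]
        rw [sum_comm, ← smul_eq_mul, ← sum_const]
        refine sum_le_sum fun y hy => ?_
        rw [← card_filter]
        refine le_trans (card_le_card (t := powersetCard r (Q y)) fun Z hZ => ?_) ?_
        · rw [mem_filter, mem_powersetCard] at hZ
          exact mem_powersetCard.2 ⟨hZ.2, hZ.1.2⟩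
        · rw [card_powersetCard]; exact Nat.choose_le_choose r (hQ y hy)
      have h2 : (∑ Z ∈ powersetCard r U, ((Y.filter fun y => Z ⊆ Q y).card : ℝ)) ≤
          Y.card * a.choose r := by exact_mod_cast h1
      have h3 : (a.choose r : ℝ) ≤ (a : ℝ) ^ r / r.factorial := Nat.choose_le_pow_div r a
      have h4 : ((U.card + 1 - r : ℕ) : ℝ) ^ r / r.factorial ≤ U.card.choose r :=
        Nat.pow_le_choose r U.card
      have h5 : (m : ℝ) ≤ ((U.card + 1 - r : ℕ) : ℝ) := by exact_mod_cast (by omega)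
      calc _ ≤ (Y.card * ((a : ℝ) ^ r / r.factorial)) * ((U.card + 1 - r : ℕ) : ℝ) ^ r := by
            gcongr; exact h2.trans (by gcongr)
        _ = ((U.card + 1 - r : ℕ) : ℝ) ^ r / r.factorial * (Y.card * (a : ℝ) ^ r) := by ring
        _ ≤ _ := by gcongr)
  rw [mem_powersetCard] at hZ
  exact ⟨Z, hZ.1, hZ.2, hZ2⟩

theorem upper (t a b s m : ℕ) (ha : 1 ≤ a) (ham : a ≤ m) (ht : a * m + (s + 1) ≤ t)
    (hb : b * a ^ (2 * s + 2) < m ^ (2 * s + 2)) (M : Fin t → Finset ℕ) (LA : Fin a → Finset ℕ)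
    (LB : Fin b → Finset ℕ) (hM : ∀ i, (M i).card = t + s + 2)
    (hA : ∀ i, (LA i).card = t + s + 2) (hB : ∀ i, (LB i).card = t + s + 2) :
    ∃ (cT : Fin t → ℕ) (cA : Fin a → ℕ) (cB : Fin b → ℕ), (∀ i, cT i ∈ M i) ∧
      (∀ i, cA i ∈ LA i) ∧ (∀ i, cB i ∈ LB i) ∧ Function.Injective cT ∧ (∀ i j, cT i ≠ cA j) ∧
      (∀ i y, cT i ≠ cB y) ∧ ∀ j y, cA j ≠ cB y := by
  obtain ⟨c0, hc0, hc1⟩ := sdr M univ fun i _ => by rw [hM, card_univ, Fintype.card_fin]; omega
  have hc0' : Function.Injective c0 := fun x y e => hc0 (mem_univ x) (mem_univ y) e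
  obtain ⟨U, hU, hUc⟩ : ∃ U : Finset ℕ, (∀ x, x ∈ U ↔ ∃ i, c0 i = x) ∧ U.card = t :=
    ⟨univ.image c0, by simp, by rw [card_image_of_injective _ hc0', card_univ, Fintype.card_fin]⟩
  have hmm : m ≤ a * m := Nat.le_mul_of_pos_left m ha
  have hsd : ∀ L : Finset ℕ, L.card = t + s + 2 → (U \ L).card + s + 2 = (L \ U).card := by
    intro L hL
    have h1 := card_sdiff_add_card_inter U L
    have h2 := card_sdiff_add_card_inter L U
    rw [inter_comm] at h2
    omega
  set I := univ.filter fun j => m + s + 2 ≤ (LA j \ U).card with hI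
  obtain ⟨c, hcU, hc⟩ := exists_mem_notMem_of_card_lt_card
    (s := (univ \ I).biUnion fun j => U \ LA j) (t := U) (by
      refine lt_of_le_of_lt (card_biUnion_le_card_mul _ _ m fun j hj => ?_) ?_
      · have h1 := hsd _ (hA j)
        have h2 : ¬ m + s + 2 ≤ (LA j \ U).card := fun h =>
          (mem_sdiff.1 hj).2 (mem_filter.2 ⟨mem_univ _, h⟩)
        omega
      · have h1 : (univ \ I).card ≤ a := by simpa using card_le_univ (univ \ I)
        have := Nat.mul_le_mul_right m h1
        omega)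
  have hcl : ∀ j, j ∉ I → c ∈ LA j := by
    intro j hj
    by_contra h
    exact hc (mem_biUnion.2 ⟨j, mem_sdiff.2 ⟨mem_univ _, hj⟩, mem_sdiff.2 ⟨hcU, h⟩⟩)
  set Y0 := univ.filter fun y => (U \ LB y).card ≤ a with hY0
  obtain ⟨Z, hZ1, hZ2, hZ3⟩ := stage1 Y0 (U.erase c) (fun y => U \ LB y) a (s + 1) m
    (fun y hy => (mem_filter.1 hy).2) (by rw [card_erase_of_mem hcU]; omega)
    (by rw [card_erase_of_mem hcU]; omega)
  have hZU : Z ⊆ U := hZ1.trans (erase_subset _ _)
  have hcZ : c ∉ Z := fun h => (mem_erase.1 (hZ1 h)).1 rfl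
  set J := univ.filter fun i => c0 i ∈ insert c Z with hJ
  have hJc : J.card ≤ s + 2 := by
    refine le_trans (card_le_card_of_injOn c0 (t := insert c Z)
      (fun i hi => (mem_filter.1 hi).2) (hc0'.injOn)) ?_
    rw [card_insert_of_notMem hcZ, hZ2]
  obtain ⟨g, hg1, hg2⟩ := sdr (fun i => M i \ U) J fun i _ => by
    have := hsd _ (hM i)
    omega
  set Z' := J.image g with hZ'
  have hZ'c : Z'.card ≤ s + 2 := card_image_le.trans hJc
  have hZ'U : ∀ x ∈ Z', x ∉ U := by
    intro x hx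
    obtain ⟨i, hi, rfl⟩ := mem_image.1 hx
    exact (mem_sdiff.1 (hg2 i hi)).2
  have hm0 : (0 : ℝ) < m := by exact_mod_cast (by omega : 0 < m)
  have hRc : ∀ y, s + 1 ≤ (LB y \ ((U \ Z) ∪ Z')).card := by
    intro y
    have h1 := le_card_sdiff ((U \ Z) ∪ Z') (LB y)
    have h2 := card_union_le (U \ Z) Z'
    rw [card_sdiff_of_subset hZU] at h2
    have := hB y
    omega
  obtain ⟨f, hf1, hf2⟩ := potential (fun j => (LA j \ U) \ Z') m hm0
    (Y0.filter fun y => Z ⊆ U \ LB y) I (fun j hj => by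
      have h1 := le_card_sdiff Z' (LA j \ U)
      have h2 := (mem_filter.1 hj).2
      exact_mod_cast (by omega : m ≤ ((LA j \ U) \ Z').card))
    (fun y => LB y \ ((U \ Z) ∪ Z')) (by
      have hIa : (I.card : ℝ) ≤ a := by
        have : I.card ≤ a := by simpa using card_le_univ I
        exact_mod_cast this
      have ham' : (a : ℝ) / m ≤ 1 := by rw [div_le_one hm0]; exact_mod_cast ham
      refine lt_of_le_of_lt (sum_le_sum (g := fun _ => ((a : ℝ) / m) ^ (s + 1)) fun y _ => ?_) ?_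
      · exact le_trans (pow_le_pow_left₀ (by positivity) (by gcongr) _)
          (pow_le_pow_of_le_one (by positivity) ham' (hRc y))
      · rw [sum_const, nsmul_eq_mul, div_pow, ← mul_div_assoc, div_lt_one (by positivity)]
        have hY : (Y0.card : ℝ) ≤ b := by
          have : Y0.card ≤ b := by simpa using card_le_univ Y0
          exact_mod_cast this
        have hb' : (b : ℝ) * (a : ℝ) ^ (2 * s + 2) < (m : ℝ) ^ (2 * s + 2) := by exact_mod_cast hb
        rw [show 2 * s + 2 = (s + 1) + (s + 1) by ring, pow_add, pow_add (m : ℝ)] at hb'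
        have h1 := mul_le_mul_of_nonneg_right hZ3 (show (0 : ℝ) ≤ (a : ℝ) ^ (s + 1) by positivity)
        have h2 := mul_le_mul_of_nonneg_right hY
          (show (0 : ℝ) ≤ (a : ℝ) ^ (s + 1) * (a : ℝ) ^ (s + 1) by positivity)
        refine lt_of_mul_lt_mul_right ?_ (show (0 : ℝ) ≤ (m : ℝ) ^ (s + 1) by positivity)
        linarith)
  have hFU : ∀ x ∈ I.image f, x ∉ U ∧ x ∉ Z' := by
    intro x hx
    obtain ⟨j, hj, rfl⟩ := mem_image.1 hx
    have := hf1 j hj
    simp only [mem_sdiff] at this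
    exact ⟨this.1.2, this.2⟩
  have hfree : ∀ y, ∃ x ∈ LB y, x ∉ ((U \ Z) ∪ Z') ∪ I.image f := by
    intro y
    by_contra h
    push Not at h
    refine hf2 y (mem_filter.2 ⟨mem_filter.2 ⟨mem_univ _, ?_⟩, fun z hz => ?_⟩) fun x hx => ?_
    · have h1 := hsd _ (hB y)
      have h2 : LB y \ U ⊆ Z' ∪ I.image f := by
        intro x hx
        rw [mem_sdiff] at hx
        rcases mem_union.1 (h x hx.1) with h3 | h3
        · rcases mem_union.1 h3 with h3 | h3
          · exact absurd (mem_sdiff.1 h3).1 hx.2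
          · exact mem_union_left _ h3
        · exact mem_union_right _ h3
      have h3 := (card_le_card h2).trans (card_union_le _ _)
      have h4 : (I.image f).card ≤ a := card_image_le.trans (by simpa using card_le_univ I)
      omega
    · refine mem_sdiff.2 ⟨hZU hz, fun hy => ?_⟩
      rcases mem_union.1 (h z hy) with h3 | h3
      · rcases mem_union.1 h3 with h3 | h3
        · exact (mem_sdiff.1 h3).2 hz
        · exact hZ'U z h3 (hZU hz)
      · exact (hFU z h3).1 (hZU hz)
    · rw [mem_sdiff] at hx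
      exact (mem_union.1 (h x hx.1)).resolve_left hx.2
  choose cB hcB1 hcB2 using hfree
  obtain ⟨cT, hT1, hT2⟩ : ∃ cT : Fin t → ℕ, (∀ i ∈ J, cT i = g i) ∧ ∀ i ∉ J, cT i = c0 i :=
    ⟨fun i => if i ∈ J then g i else c0 i, fun i hi => if_pos hi, fun i hi => if_neg hi⟩
  obtain ⟨cA, hA1, hA2⟩ : ∃ cA : Fin a → ℕ, (∀ i ∈ I, cA i = f i) ∧ ∀ i ∉ I, cA i = c :=
    ⟨fun i => if i ∈ I then f i else c, fun i hi => if_pos hi, fun i hi => if_neg hi⟩
  have hc0U : ∀ i, c0 i ∈ U := fun i => (hU _).2 ⟨i, rfl⟩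
  have hT3 : ∀ i, (cT i ∈ U \ Z ∧ cT i ≠ c) ∨ cT i ∈ Z' := by
    intro i
    by_cases hi : i ∈ J
    · exact Or.inr (hT1 i hi ▸ mem_image_of_mem g hi)
    · have : c0 i ∉ insert c Z := fun h => hi (mem_filter.2 ⟨mem_univ _, h⟩)
      rw [mem_insert, not_or] at this
      rw [hT2 i hi]
      exact Or.inl ⟨mem_sdiff.2 ⟨hc0U i, this.2⟩, this.1⟩
  have hA3 : ∀ j, cA j = c ∨ cA j ∈ I.image f := by
    intro j
    by_cases hj : j ∈ I
    · exact Or.inr (hA1 j hj ▸ mem_image_of_mem f hj)
    · exact Or.inl (hA2 j hj)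
  refine ⟨cT, cA, cB, fun i => ?_, fun j => ?_, hcB1, fun i j e => ?_, fun i j e => ?_,
    fun i y e => hcB2 y ?_, fun j y e => hcB2 y ?_⟩
  · by_cases hi : i ∈ J
    · rw [hT1 i hi]; exact (mem_sdiff.1 (hg2 i hi)).1
    · rw [hT2 i hi]; exact hc1 i (mem_univ _)
  · by_cases hj : j ∈ I
    · rw [hA1 j hj]; exact (mem_sdiff.1 (mem_sdiff.1 (hf1 j hj)).1).1
    · rw [hA2 j hj]; exact hcl j hj
  · by_cases hi : i ∈ J <;> by_cases hj : j ∈ J
    · rw [hT1 i hi, hT1 j hj] at e; exact hg1 hi hj e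
    · rw [hT1 i hi, hT2 j hj] at e
      exact absurd (e ▸ hc0U j) (mem_sdiff.1 (hg2 i hi)).2
    · rw [hT2 i hi, hT1 j hj] at e
      exact absurd (e ▸ hc0U i) (mem_sdiff.1 (hg2 j hj)).2
    · rw [hT2 i hi, hT2 j hj] at e; exact hc0' e
  · rcases hT3 i with h | h <;> rcases hA3 j with h' | h'
    · exact h.2 (e.trans h')
    · exact (hFU _ h').1 (e ▸ (mem_sdiff.1 h.1).1)
    · exact hZ'U _ h (by rw [e, h']; exact hcU)
    · exact (hFU _ h').2 (e ▸ h)
  · rw [← e]
    rcases hT3 i with h | h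
    · exact mem_union_left _ (mem_union_left _ h.1)
    · exact mem_union_left _ (mem_union_right _ h)
  · rw [← e]
    rcases hA3 j with h | h
    · rw [h]; exact mem_union_left _ (mem_union_left _ (mem_sdiff.2 ⟨hcU, hcZ⟩))
    · exact mem_union_right _ h

end Pool.Agent.H.MP_abf9c7_co
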